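import Pool.Agent.helper88.RQ2.Spec

/-!
# rq:FT: the number of circuits of a set which splits into pieces of kind `K`
-/

set_option autoImplicit false

open Set Matroid RadonMin

namespace RadonQ2

theorem FT_proof (hESUM : ESUM_stmt) : FT_stmt := by
  intro V _ _ _ m K X hK hX
  obtain ⟨P, hPK, hPd, hPx, hPr⟩ := hX
  obtain ⟨h1, h2⟩ := hESUM V P X hPd hPx hPr
  have h3 : (ci X : ℤ) = ∑ B ∈ P, (ci B : ℤ) := by
    rw [h1, Nat.cast_sum]
  have h4 : (X.card : ℤ) = ∑ B ∈ P, (B.card : ℤ) := by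
    rw [h2, Nat.cast_sum]
  have h5 : (ra X : ℤ) = ∑ B ∈ P, (ra B : ℤ) := by
    rw [← hPr, Nat.cast_sum]
  rw [h3, h4, h5]
  unfold TT
  rw [Finset.mul_sum, Finset.mul_sum, ← Finset.sum_sub_distrib]
  refine Finset.sum_congr rfl fun B hB => ?_
  exact hK B (hPK B hB).2

end RadonQ2
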